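import Mathlib
import Pool.Agent.Lib.MP_bca609_ag.H23.Main
import Pool.Agent.Lib.MP_bca609_ag.Proj

/-!
# Degenerations of trivial rank two bundles on `P^3`: distance to lattices over small fields

Let `R = ℂ⟦t⟧` (`PowerSeries ℂ`, with `t = PowerSeries.X`).  A rank two bundle `V` on `P^3` over the
disc whose general member is trivial can be embedded as a subsheaf `t^N 𝒪² ⊆ V ⊆ 𝒪²`
on `P^3_R`, and it is then the sheaf associated with a graded submodule `M` of `R[x₀,…,x₃]²`.
-/

namespace Pool.Agent.Results.MP_bca609_ag.DistanceToSmallFields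

open MvPolynomial Pool.Agent.Lib.MPbca609

/-- A graded submodule `M` of `(ℂ⟦t⟧[x₀,x₁,x₂,x₃])²` containing `t^N (ℂ⟦t⟧[x])²` for some `N`
and whose localization at each coordinate `xᵢ` is a projective module.  The associated sheaf
`V ⊆ 𝒪²` on `P^3` over `ℂ⟦t⟧` is a rank two bundle whose general member is trivial, and
each rank two bundle with trivial general member arises in this way. -/
structure IsBundle (M : Submodule (MvPolynomial (Fin 4) (PowerSeries ℂ))
    (Fin 2 → MvPolynomial (Fin 4) (PowerSeries ℂ))) : Prop where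
  homogeneous : ∀ u ∈ M, ∀ d : ℕ, (fun j => homogeneousComponent d (u j)) ∈ M
  generic : ∃ N : ℕ, ∀ u : Fin 2 → MvPolynomial (Fin 4) (PowerSeries ℂ),
    (C ((PowerSeries.X : PowerSeries ℂ) ^ N) : MvPolynomial (Fin 4) (PowerSeries ℂ)) • u ∈ M
  locallyFree : ∀ i : Fin 4,
    Module.Projective (Localization.Away (X i : MvPolynomial (Fin 4) (PowerSeries ℂ)))
      (LocalizedModule (Submonoid.powers (X i : MvPolynomial (Fin 4) (PowerSeries ℂ))) M)

/-- The function field `F` of the affine cone over `P^3`. -/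
abbrev F : Type := FractionRing (MvPolynomial (Fin 4) ℂ)

/-- An element of `F` is a fraction of degree zero if it is the quotient of two homogeneous
polynomials of the same degree; these elements form the function field of `P^3`. -/
def IsDegreeZero (x : F) : Prop :=
  ∃ (e : ℕ) (p q : MvPolynomial (Fin 4) ℂ), p.IsHomogeneous e ∧ q.IsHomogeneous e ∧ q ≠ 0 ∧
    x = algebraMap _ F p / algebraMap _ F q

/-- The ring homomorphism `ℂ⟦t⟧[x₀,x₁,x₂,x₃] → F⟦t⟧`. -/
noncomputable def toGeneric : MvPolynomial (Fin 4) (PowerSeries ℂ) →+* PowerSeries F :=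
  eval₂Hom (PowerSeries.map (algebraMap ℂ F))
    (fun i => PowerSeries.C (algebraMap (MvPolynomial (Fin 4) ℂ) F (X i)))

/-- The lattice `V_F` over `F⟦t⟧` generated by `M`, that is `V` at the generic point of the
cone. -/
noncomputable def genericLattice (M : Submodule (MvPolynomial (Fin 4) (PowerSeries ℂ))
    (Fin 2 → MvPolynomial (Fin 4) (PowerSeries ℂ))) :
    Submodule (PowerSeries F) (Fin 2 → PowerSeries F) :=
  Submodule.span (PowerSeries F) {v | ∃ u ∈ M, v = fun j => toGeneric (u j)}

/-- The lattice over `F⟦t⟧` generated by the two columns of a matrix with entries in `L⟦t⟧`,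
where `L` is a subfield of `F`. -/
noncomputable def extendedLattice (L : IntermediateField ℂ F)
    (Q : Matrix (Fin 2) (Fin 2) (PowerSeries L)) :
    Submodule (PowerSeries F) (Fin 2 → PowerSeries F) :=
  Submodule.span (PowerSeries F)
    {v | ∃ c : Fin 2, v = fun j => PowerSeries.map (algebraMap L F) (Q j c)}

theorem toGeneric_eq (p : MvPolynomial (Fin 4) (PowerSeries ℂ)) :
    toGeneric p = PowerSeries.map (algebraMap (MvPolynomial (Fin 4) ℂ) F) (rho (Fin 4) ℂ p) := by
  have h : toGeneric = (PowerSeries.map (algebraMap (MvPolynomial (Fin 4) ℂ) F)).comp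
      (rho (Fin 4) ℂ) := by
    apply MvPolynomial.ringHom_ext
    · intro r
      rw [RingHom.comp_apply, rho_C]
      show eval₂ _ _ (C r) = _
      rw [eval₂_C]
      ext n
      rw [PowerSeries.coeff_map, PowerSeries.coeff_map, PowerSeries.coeff_map,
        IsScalarTower.algebraMap_apply ℂ (MvPolynomial (Fin 4) ℂ) F]
      rfl
    · intro i
      rw [RingHom.comp_apply, rho_X, PowerSeries.map_C]
      show eval₂ _ _ (X i) = _
      rw [eval₂_X]
  rw [h]; rfl

theorem result (M : Submodule (MvPolynomial (Fin 4) (PowerSeries ℂ))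
      (Fin 2 → MvPolynomial (Fin 4) (PowerSeries ℂ))) (hM : IsBundle M)
    (L : IntermediateField ℂ F) (hL : ∀ x ∈ L, IsDegreeZero x) (hLt : Algebra.trdeg ℂ L ≤ 2)
    (s : ℕ) (Q : Matrix (Fin 2) (Fin 2) (PowerSeries L))
    (hQ : extendedLattice L Q ≤ genericLattice M)
    (hs : ∀ v ∈ genericLattice M, (PowerSeries.X : PowerSeries F) ^ s • v ∈ extendedLattice L Q) :
    ∃ P : Matrix (Fin 2) (Fin 2) (PowerSeries ℂ), P.det ≠ 0 ∧
      (∀ u ∈ M, ∃ w : Fin 2 → MvPolynomial (Fin 4) (PowerSeries ℂ), u = (P.map C).mulVec w) ∧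
      ∀ w : Fin 2 → MvPolynomial (Fin 4) (PowerSeries ℂ),
        ∃ N : ℕ, ∀ i : Fin 4, (X i : MvPolynomial (Fin 4) (PowerSeries ℂ)) ^ N •
          ((C ((PowerSeries.X : PowerSeries ℂ) ^ (2 * s)) : MvPolynomial (Fin 4) (PowerSeries ℂ)) •
            (P.map C).mulVec w) ∈ M := by
  have hgood : H23.GoodL M := by
    refine ⟨hM.homogeneous, hM.generic, ?_⟩
    intro a ha
    obtain ⟨i, hi⟩ : ∃ i, a i ≠ 0 := by
      by_contra hcon
      push Not at hcon
      exact ha (funext hcon)
    obtain ⟨N, hN⟩ := hM.generic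
    let _ : Algebra (MvPolynomial (Fin 4) (PowerSeries ℂ)) (PowerSeries (Loc a)) :=
      (rhoA a).toAlgebra
    have halg : ∀ r, algebraMap (MvPolynomial (Fin 4) (PowerSeries ℂ)) (PowerSeries (Loc a)) r =
        rhoA a r := fun _ => rfl
    have hunit : IsUnit (algebraMap (MvPolynomial (Fin 4) (PowerSeries ℂ)) (PowerSeries (Loc a))
        (X i)) := by
      rw [halg, rhoA, RingHom.comp_apply, rho_X, PowerSeries.map_C]
      refine IsUnit.map _ ?_
      refine IsLocalization.map_units (Loc a) (⟨X i, ?_⟩ : (mIdeal a).primeCompl)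
      intro hmem
      have h1 := (mem_mIdeal a _).1 hmem
      rw [eval_X] at h1
      exact hi h1
    have ht : algebraMap (MvPolynomial (Fin 4) (PowerSeries ℂ)) (PowerSeries (Loc a))
        (C ((PowerSeries.X : PowerSeries ℂ) ^ N)) ≠ 0 := by
      rw [halg, rhoA_C_X_pow]
      exact pow_ne_zero _ PowerSeries.X_ne_zero
    exact exists_pair_of_localized (𝓞 := PowerSeries (Loc a)) (X i) hunit M _ ht hN
      (hM.locallyFree i)
  have hinj : Function.Injective (algebraMap (MvPolynomial (Fin 4) ℂ) F) :=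
    IsFractionRing.injective _ _
  have hVF : genericLattice M = H23.VF M := by
    unfold genericLattice H23.VF
    congr 1
    ext v
    constructor
    · rintro ⟨u, hu, rfl⟩
      refine ⟨u, hu, ?_⟩
      ext1 j
      rw [toGeneric_eq]; rfl
    · rintro ⟨u, hu, rfl⟩
      refine ⟨u, hu, ?_⟩
      ext1 j
      rw [toGeneric_eq]; rfl
  have hspan : extendedLattice L Q = Submodule.span (PowerSeries F)
      {(fun j => PowerSeries.map (algebraMap L F) (Q j 0)),
        (fun j => PowerSeries.map (algebraMap L F) (Q j 1))} := by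
    unfold extendedLattice
    congr 1
    ext v
    constructor
    · rintro ⟨c, rfl⟩
      fin_cases c
      · exact Or.inl rfl
      · exact Or.inr rfl
    · rintro (rfl | hv)
      · exact ⟨0, rfl⟩
      · rw [Set.mem_singleton_iff] at hv
        exact ⟨1, hv⟩
  have hcoef : ∀ (c : Fin 2) (j : Fin 2) (i : ℕ),
      PowerSeries.coeff i (PowerSeries.map (algebraMap L F) (Q j c)) ∈ L := by
    intro c j i
    rw [PowerSeries.coeff_map]
    exact (PowerSeries.coeff i (Q j c)).2
  have hmem : ∀ c : Fin 2, (fun j => PowerSeries.map (algebraMap L F) (Q j c)) ∈ H23.VF M := by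
    intro c
    rw [← hVF]
    exact hQ (Submodule.subset_span ⟨c, rfl⟩)
  have hL' : L.toSubfield ≤ homFrac (Fin 4) ℂ F hinj := by
    intro x hx
    obtain ⟨e, p, q, hp, hq, hq0, rfl⟩ := hL x hx
    refine ⟨e, p, q, hp, hq, hq0, ?_⟩
    have : algebraMap (MvPolynomial (Fin 4) ℂ) F q ≠ 0 :=
      fun h0 => hq0 (hinj (by rw [h0, map_zero]))
    rw [div_mul_cancel₀ _ this]
  obtain ⟨P, hP, H1, H2⟩ := H23.near_of_small 2 (by simp) hinj L hL' (by exact_mod_cast hLt) s hgood
    _ _ (hcoef 0) (hcoef 1) (hmem 0) (hmem 1) (by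
      intro u hu
      rw [← hspan]
      apply hs
      rw [hVF]
      exact H23.vF_mem_VF hu)
  exact ⟨P, hP, H1, H2⟩

end Pool.Agent.Results.MP_bca609_ag.DistanceToSmallFields
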