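import Mathlib
import Pool.Agent.Lib.MP_bca609_ag.Induct
import Pool.Agent.Lib.MP_bca609_ag.Proj

/-!
# Degenerations of trivial rank two bundles on `P^3`

Let `R = ℂ⟦t⟧` (`PowerSeries ℂ`, with `t = PowerSeries.X`).  A rank two bundle `V` on `P^3` over the
disc whose general member is trivial can be embedded as a subsheaf `t^N 𝒪² ⊆ V ⊆ 𝒪²`
on `P^3_R`, and it is then the sheaf associated with a graded submodule `M` of `R[x₀,…,x₃]²`.
-/

namespace Pool.Agent.Results.MP_bca609_ag.TrivialAwayFromDepthTwo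

open MvPolynomial Pool.Agent.Lib.MPbca609

/-- A graded submodule `M` of `(ℂ⟦t⟧[x₀,x₁,x₂,x₃])²` containing `t^N (ℂ⟦t⟧[x])²` for some `N`
and whose localization at each coordinate `xᵢ` is a projective module.  The associated sheaf
`V ⊆ 𝒪²` on `P^3` over `ℂ⟦t⟧` is a rank two bundle whose general member is trivial, and
each rank two bundle with trivial general member arises in this way. -/
structure IsBundle (M : Submodule (MvPolynomial (Fin 4) (PowerSeries ℂ))
    (Fin 2 → MvPolynomial (Fin 4) (PowerSeries ℂ))) : Prop where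
  homogeneous : ∀ u ∈ M, ∀ d : ℕ, (fun j => homogeneousComponent d (u j)) ∈ M
  generic : ∃ N : ℕ, ∀ u : Fin 2 → MvPolynomial (Fin 4) (PowerSeries ℂ),
    (C ((PowerSeries.X : PowerSeries ℂ) ^ N) : MvPolynomial (Fin 4) (PowerSeries ℂ)) • u ∈ M
  locallyFree : ∀ i : Fin 4,
    Module.Projective (Localization.Away (X i : MvPolynomial (Fin 4) (PowerSeries ℂ)))
      (LocalizedModule (Submonoid.powers (X i : MvPolynomial (Fin 4) (PowerSeries ℂ))) M)

/-- Evaluation of a polynomial with coefficients in `ℂ⟦t⟧` at a complex point. -/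
noncomputable def evalAt (a : Fin 4 → ℂ) (f : MvPolynomial (Fin 4) (PowerSeries ℂ)) :
    PowerSeries ℂ :=
  eval (fun i => PowerSeries.C (a i)) f

theorem result (M : Submodule (MvPolynomial (Fin 4) (PowerSeries ℂ))
      (Fin 2 → MvPolynomial (Fin 4) (PowerSeries ℂ))) (hM : IsBundle M)
    (hshallow : ∀ a : Fin 4 → ℂ, a ≠ 0 → ∃ u ∈ M, ∃ j : Fin 2,
      ¬ (PowerSeries.X : PowerSeries ℂ) ^ 2 ∣ evalAt a (u j)) :
    ∃ P : Matrix (Fin 2) (Fin 2) (PowerSeries ℂ), P.det ≠ 0 ∧
      ∀ u : Fin 2 → MvPolynomial (Fin 4) (PowerSeries ℂ),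
        (∃ N : ℕ, ∀ i : Fin 4, (X i : MvPolynomial (Fin 4) (PowerSeries ℂ)) ^ N • u ∈ M) ↔
          ∃ w : Fin 2 → MvPolynomial (Fin 4) (PowerSeries ℂ), u = (P.map C).mulVec w := by
  have hgood : Good M := by
    refine ⟨hM.homogeneous, hM.generic, ?_, hshallow⟩
    intro a ha
    obtain ⟨i, hi⟩ : ∃ i, a i ≠ 0 := by
      by_contra hcon
      push Not at hcon
      exact ha (funext hcon)
    obtain ⟨N, hN⟩ := hM.generic
    let _ : Algebra (MvPolynomial (Fin 4) (PowerSeries ℂ)) (PowerSeries (Loc a)) :=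
      (rhoA a).toAlgebra
    have halg : ∀ r, algebraMap (MvPolynomial (Fin 4) (PowerSeries ℂ)) (PowerSeries (Loc a)) r =
        rhoA a r := fun _ => rfl
    have hunit : IsUnit (algebraMap (MvPolynomial (Fin 4) (PowerSeries ℂ)) (PowerSeries (Loc a))
        (X i)) := by
      rw [halg, rhoA, RingHom.comp_apply, rho_X, PowerSeries.map_C]
      refine IsUnit.map _ ?_
      refine IsLocalization.map_units (Loc a) (⟨X i, ?_⟩ : (mIdeal a).primeCompl)
      intro hmem
      have h1 := (mem_mIdeal a _).1 hmem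
      rw [eval_X] at h1
      exact hi h1
    have ht : algebraMap (MvPolynomial (Fin 4) (PowerSeries ℂ)) (PowerSeries (Loc a))
        (C ((PowerSeries.X : PowerSeries ℂ) ^ N)) ≠ 0 := by
      rw [halg, rhoA_C_X_pow]
      exact pow_ne_zero _ PowerSeries.X_ne_zero
    exact exists_pair_of_localized (𝓞 := PowerSeries (Loc a)) (X i) hunit M _ ht hN
      (hM.locallyFree i)
  obtain ⟨P, hP, H⟩ := isConst_of_good (by simp) hgood
  exact ⟨P, hP, H⟩

end Pool.Agent.Results.MP_bca609_ag.TrivialAwayFromDepthTwo
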